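import Pool.Agent.K7.H30.VoH

set_option autoImplicit false
open Matrix

namespace Pool.Agent.Results.MP_16b7e9_gt.GenericVonorm

/-- The value `A[x] = xᵀ A x` at an integral vector `x`. -/
noncomputable def formVal {n : ℕ} (A : Matrix (Fin n) (Fin n) ℝ) (x : Fin n → ℤ) : ℝ :=
  dotProduct (fun i => (x i : ℝ)) (A.mulVec (fun i => (x i : ℝ)))

/-- `tcvp(A, v)` for `v` the vector with entry `1/2` on `S` and `0` off `S`: the minimum over
integral `x` of `A[x - v]`. -/
noncomputable def tcvp {n : ℕ} (A : Matrix (Fin n) (Fin n) ℝ) (S : Finset (Fin n)) : ℝ :=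
  ⨅ x : Fin n → ℤ,
    dotProduct (fun i => (x i : ℝ) - (if i ∈ S then (1/2 : ℝ) else 0))
      (A.mulVec (fun i => (x i : ℝ) - (if i ∈ S then (1/2 : ℝ) else 0)))

/-- In every class of integral vectors modulo `2`, the vectors of least value `A[·]` are a single
pair `±x`: two vectors `x, y` of the same class, both of least value in that class, satisfy
`y = x` or `y = -x`. -/
def UniqueMinimalVectors {n : ℕ} (A : Matrix (Fin n) (Fin n) ℝ) : Prop :=
  ∀ x y : Fin n → ℤ, (∀ i, Even (x i - y i)) →
    (∀ z : Fin n → ℤ, (∀ i, Even (z i - x i)) →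
      formVal A x ≤ formVal A z ∧ formVal A y ≤ formVal A z) →
    y = x ∨ y = -x

/-- In every dimension: the positive definite forms all of whose classes mod 2 have a unique pair
of minimal vectors form an open dense subset of the cone of positive definite forms, and each of
them is determined among all positive definite forms, up to integral equivalence, by its
vonorms. -/
theorem result (n : ℕ) :
    IsOpen {A : {A : Matrix (Fin n) (Fin n) ℝ // A.PosDef} | UniqueMinimalVectors A.1} ∧
    Dense {A : {A : Matrix (Fin n) (Fin n) ℝ // A.PosDef} | UniqueMinimalVectors A.1} ∧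
    ∀ A B : Matrix (Fin n) (Fin n) ℝ, A.PosDef → B.PosDef → UniqueMinimalVectors A →
      (∀ S : Finset (Fin n), S.Nonempty → tcvp A S = tcvp B S) →
      ∃ U : Matrix (Fin n) (Fin n) ℤ, IsUnit U.det ∧
        B = (U.map (Int.cast : ℤ → ℝ))ᵀ * A * U.map (Int.cast : ℤ → ℝ) := by
  refine ⟨Pool.Agent.K7.H30.Vo.isOpen_set, Pool.Agent.K7.H30.Vo.dense_set, ?_⟩
  intro A B hA hB hu h
  refine Pool.Agent.K7.H30.Vo.main_matrix hA hB hu ?_
  intro S
  by_cases hS : S.Nonempty
  · exact h S hS
  · rw [Finset.not_nonempty_iff_eq_empty] at hS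
    subst hS
    obtain ⟨M⟩ := (Pool.Agent.K7.H30.Vo.latOf hA).exists_minSys
    obtain ⟨N⟩ := (Pool.Agent.K7.H30.Vo.latOf hB).exists_minSys
    rw [Pool.Agent.K7.H30.Vo.tcvp_eq hA M, Pool.Agent.K7.H30.Vo.tcvp_eq hB N]
    have h0 : (Pool.Agent.K7.H30.Vo.cls (∅ : Finset (Fin n))) = 0 := by
      funext i
      simp [Pool.Agent.K7.H30.Vo.cls]
    rw [h0, M.f_zero, N.f_zero]

end Pool.Agent.Results.MP_16b7e9_gt.GenericVonorm
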